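import Pool.Agent.Q256.FX.StmD

/-!
# Job GEN: a generator of bounded height (helper210)
-/

set_option autoImplicit false

namespace Pool.Agent.Q210.FX

open Height NumberField

/-- the height of a natural number -/
lemma hgt_nat {K : Type} [Field K] [NumberField K] (m : ℕ) :
    mulHeight₁ (m : K) ≤ ((m : ℝ) + 1) ^ totalWeight K := by
  rcases Nat.eq_zero_or_pos m with h | h
  · subst h
    simp
  · have h1 := mulHeight₁_sum_le (K := K) (s := Finset.range m)
      (Finset.nonempty_range_iff.2 h.ne') (fun _ => (1 : K))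
    simp only [Finset.sum_const, Finset.card_range, nsmul_eq_mul, mul_one, mulHeight₁_one,
      Finset.prod_const, one_pow] at h1
    refine h1.trans (pow_le_pow_left₀ (Nat.cast_nonneg _) (by linarith) _)

/-- the height of a power sum -/
lemma hgt_sum {K : Type} [Field K] [NumberField K] {D M m : ℕ} (hD : totalWeight K ≤ D)
    (c : Fin M → K) {H : ℝ} (hH : 1 ≤ H) (hc : ∀ j, mulHeight₁ (c j) ≤ H) :
    mulHeight₁ (∑ j : Fin M, (m : K) ^ (j : ℕ) * c j) ≤
      ((M : ℝ) + 1) ^ D * ((((m : ℝ) + 1) ^ D) ^ M * H) ^ M := by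
  have hm1 : (1 : ℝ) ≤ (m : ℝ) + 1 := by
    have : (0 : ℝ) ≤ m := Nat.cast_nonneg _
    linarith
  have hM1 : (1 : ℝ) ≤ (M : ℝ) + 1 := by
    have : (0 : ℝ) ≤ M := Nat.cast_nonneg _
    linarith
  have hterm : ∀ j : Fin M, mulHeight₁ ((m : K) ^ (j : ℕ) * c j) ≤
      (((m : ℝ) + 1) ^ D) ^ M * H := by
    intro j
    refine (mulHeight₁_mul_le _ _).trans ?_
    refine mul_le_mul ?_ (hc j) (mulHeight₁_nonneg _) (by positivity)
    have h1 : mulHeight₁ ((m : K) ^ (j : ℕ)) = mulHeight₁ (m : K) ^ (j : ℕ) := by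
      exact mulHeight₁_pow _ _
    rw [h1]
    have h2 : mulHeight₁ (m : K) ≤ ((m : ℝ) + 1) ^ D :=
      (hgt_nat m).trans (pow_le_pow_right₀ hm1 hD)
    exact (pow_le_pow_left₀ (mulHeight₁_nonneg _) h2 _).trans
      (pow_le_pow_right₀ (one_le_pow₀ hm1) j.2.le)
  rcases Nat.eq_zero_or_pos M with h | h
  · subst h
    simp
  · have : Nonempty (Fin M) := ⟨⟨0, h⟩⟩
    refine (mulHeight₁_sum_le Finset.univ_nonempty _).trans ?_
    refine mul_le_mul ?_ ?_ (Finset.prod_nonneg fun _ _ => mulHeight₁_nonneg _) (by positivity)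
    · rw [Finset.card_univ, Fintype.card_fin]
      exact (pow_le_pow_left₀ (Nat.cast_nonneg _) (by linarith) _).trans
        (pow_le_pow_right₀ hM1 hD)
    · refine (Finset.prod_le_prod (fun _ _ => mulHeight₁_nonneg _) fun j _ => hterm j).trans ?_
      rw [Finset.prod_const, Finset.card_univ, Fintype.card_fin]

/-- the separating integer -/
lemma exists_sep {K : Type} [Field K] [NumberField K] {D M : ℕ}
    (hD : Module.finrank ℚ K ≤ D) (c : Fin M → K)
    (hc : IntermediateField.adjoin ℚ (Set.range c) = ⊤) :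
    ∃ m : ℕ, m ≤ D * D * M ∧
      IntermediateField.adjoin ℚ {∑ j : Fin M, (m : K) ^ (j : ℕ) * c j} = ⊤ := by
  classical
  have hcard : Fintype.card (K →ₐ[ℚ] ℂ) ≤ D := by
    rw [AlgHom.card ℚ K ℂ]; exact hD
  -- the polynomials
  let P : (K →ₐ[ℚ] ℂ) × (K →ₐ[ℚ] ℂ) → Polynomial ℂ := fun p =>
    ∑ j : Fin M, Polynomial.C (p.1 (c j) - p.2 (c j)) * Polynomial.X ^ (j : ℕ)
  have hPe : ∀ p (m : ℕ), (P p).eval (m : ℂ) =
      p.1 (∑ j : Fin M, (m : K) ^ (j : ℕ) * c j) - p.2 (∑ j : Fin M, (m : K) ^ (j : ℕ) * c j) := by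
    intro p m
    simp only [P, Polynomial.eval_finsetSum, Polynomial.eval_mul, Polynomial.eval_C,
      Polynomial.eval_pow, Polynomial.eval_X, map_sum, map_mul, map_pow, map_natCast]
    rw [← Finset.sum_sub_distrib]
    exact Finset.sum_congr rfl fun j _ => by ring
  have hP0 : ∀ p, p.1 ≠ p.2 → P p ≠ 0 := by
    intro p hp h0
    apply hp
    have h1 : ∀ j : Fin M, p.1 (c j) = p.2 (c j) := by
      intro j
      have h2 := congrArg (fun q : Polynomial ℂ => q.coeff (j : ℕ)) h0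
      simp only [P, Polynomial.finsetSum_coeff, Polynomial.coeff_C_mul_X_pow,
        Polynomial.coeff_zero] at h2
      rw [Finset.sum_eq_single j] at h2
      · simpa [sub_eq_zero] using h2
      · intro k _ hk
        rw [if_neg]
        intro h3
        exact hk (Fin.ext h3.symm)
      · intro h3
        exact absurd (Finset.mem_univ _) h3
    have h4 : ∀ x ∈ IntermediateField.adjoin ℚ (Set.range c), p.1 x = p.2 x := by
      intro x hx
      induction hx using IntermediateField.adjoin_induction with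
      | mem x hx => obtain ⟨j, rfl⟩ := hx; exact h1 j
      | algebraMap x => simp
      | add x y _ _ hx hy => rw [map_add, map_add, hx, hy]
      | inv x _ hx => rw [map_inv₀, map_inv₀, hx]
      | mul x y _ _ hx hy => rw [map_mul, map_mul, hx, hy]
    refine AlgHom.ext fun x => h4 x ?_
    rw [hc]
    trivial
  have hPd : ∀ p, (P p).natDegree ≤ M := by
    intro p
    refine Polynomial.natDegree_sum_le_of_forall_le _ _ fun j _ => ?_
    exact (Polynomial.natDegree_C_mul_X_pow_le _ _).trans j.2.le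
  let pairs : Finset ((K →ₐ[ℚ] ℂ) × (K →ₐ[ℚ] ℂ)) := Finset.univ.filter fun p => p.1 ≠ p.2
  let bad : Finset ℕ := (Finset.range (D * D * M + 1)).filter fun m =>
    ∃ p ∈ pairs, (P p).eval (m : ℂ) = 0
  have hbad : bad.card ≤ D * D * M := by
    have h1 : bad ⊆ pairs.biUnion fun p =>
        (Finset.range (D * D * M + 1)).filter fun m : ℕ => (P p).eval (m : ℂ) = 0 := by
      intro m hm
      rw [Finset.mem_filter] at hm
      obtain ⟨hm1, p, hp, hm2⟩ := hm
      exact Finset.mem_biUnion.2 ⟨p, hp, Finset.mem_filter.2 ⟨hm1, hm2⟩⟩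
    refine (Finset.card_le_card h1).trans ?_
    have h2 : ∀ p ∈ pairs, ((Finset.range (D * D * M + 1)).filter
        fun m : ℕ => (P p).eval (m : ℂ) = 0).card ≤ M := by
      intro p hp
      have hp' : p.1 ≠ p.2 := (Finset.mem_filter.1 hp).2
      have h3 : ((Finset.range (D * D * M + 1)).filter
          fun m : ℕ => (P p).eval (m : ℂ) = 0).card ≤ (P p).roots.toFinset.card := by
        refine Finset.card_le_card_of_injOn (fun m : ℕ => (m : ℂ)) ?_ ?_
        · intro m hm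
          have hm' := (Finset.mem_filter.1 hm).2
          rw [Finset.mem_coe, Multiset.mem_toFinset, Polynomial.mem_roots (hP0 p hp')]
          exact hm'
        · intro a _ b _ h
          exact Nat.cast_injective (R := ℂ) h
      exact h3.trans ((Multiset.toFinset_card_le _).trans
        ((Polynomial.card_roots' _).trans (hPd p)))
    refine (Finset.card_biUnion_le_card_mul _ _ _ h2).trans ?_
    refine Nat.mul_le_mul_right M ?_
    refine (Finset.card_filter_le _ _).trans ?_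
    rw [Finset.card_univ, Fintype.card_prod]
    exact Nat.mul_le_mul hcard hcard
  have hex : ∃ m ∈ Finset.range (D * D * M + 1), m ∉ bad := by
    by_contra h
    push Not at h
    have h1 : (Finset.range (D * D * M + 1)).card ≤ bad.card := Finset.card_le_card h
    rw [Finset.card_range] at h1
    omega
  obtain ⟨m, hm, hmb⟩ := hex
  refine ⟨m, by rw [Finset.mem_range] at hm; omega, ?_⟩
  rw [Field.primitive_element_iff_algHom_eq_of_eval' ℚ ℂ (fun x => IsAlgClosed.splits _)]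
  intro σ τ h
  by_contra hne
  apply hmb
  refine Finset.mem_filter.2 ⟨hm, (σ, τ), Finset.mem_filter.2 ⟨Finset.mem_univ _, hne⟩, ?_⟩
  rw [hPe]
  simpa [sub_eq_zero] using h

theorem gen : Pool.Agent.Q256.FX.S_gen := by
  intro D M
  set m0 : ℕ := D * D * M with hm0
  obtain ⟨C0, hC0⟩ : ∃ C0 : ℕ, ((M : ℝ) + 1) ^ D * ((((m0 : ℝ) + 1) ^ D) ^ M) ^ M ≤
      (2 : ℝ) ^ C0 := by
    obtain ⟨n, hn⟩ := pow_unbounded_of_one_lt
      (((M : ℝ) + 1) ^ D * ((((m0 : ℝ) + 1) ^ D) ^ M) ^ M) (one_lt_two)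
    exact ⟨n, hn.le⟩
  refine ⟨C0 + M, ?_⟩
  intro K _ _ hD c hc H hH2 hH
  obtain ⟨m, hm, hm2⟩ := exists_sep hD c hc
  refine ⟨_, hm2, ?_⟩
  have hH2' : (2 : ℝ) ≤ H := by exact_mod_cast hH2
  have hw : totalWeight K ≤ D := by
    rw [NumberField.totalWeight_eq_finrank]; exact hD
  refine (hgt_sum hw c (by linarith : (1 : ℝ) ≤ H) hH).trans ?_
  have hmm : (m : ℝ) ≤ m0 := by exact_mod_cast hm
  have h1 : (((m : ℝ) + 1) ^ D) ^ M ≤ (((m0 : ℝ) + 1) ^ D) ^ M := by gcongr
  calc ((M : ℝ) + 1) ^ D * ((((m : ℝ) + 1) ^ D) ^ M * H) ^ M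
      ≤ ((M : ℝ) + 1) ^ D * ((((m0 : ℝ) + 1) ^ D) ^ M * H) ^ M := by gcongr
    _ = (((M : ℝ) + 1) ^ D * ((((m0 : ℝ) + 1) ^ D) ^ M) ^ M) * (H : ℝ) ^ M := by
        rw [mul_pow]; ring
    _ ≤ (2 : ℝ) ^ C0 * (H : ℝ) ^ M := by gcongr
    _ ≤ (H : ℝ) ^ C0 * (H : ℝ) ^ M := by gcongr
    _ = (H : ℝ) ^ (C0 + M) := (pow_add _ _ _).symm

end Pool.Agent.Q210.FX
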