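import Pool.Agent.Q256.FX.StmD
import Pool.Agent.Q14.FX.Ht

/-!
# Job HTD: the height of a point is at most the canonical height plus `A log X`, number fields of
bounded degree (helper210)
-/

set_option autoImplicit false

namespace Pool.Agent.Q210.FX

open Real Filter Topology NumberField
open Pool.Agent.Q256.FX (S_htD)
open Pool.Agent.H951R3.PB
open Pool.Agent.Q14.FX (mons supp_sub low_all)

/-- maximum of the coefficients -/
noncomputable def nf {K : Type} [Field K] (v : AbsoluteValue K ℝ) (d : ℕ)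
    (f : Fin 2 → MvPolynomial (Fin 2) K) : ℝ := ⨆ p, v (cf d f p)

theorem nf_le {K : Type} [Field K] (v : AbsoluteValue K ℝ) (d : ℕ)
    (f : Fin 2 → MvPolynomial (Fin 2) K) (p : Fin 2 × Fin (d + 1)) : v (cf d f p) ≤ nf v d f :=
  le_ciSup (f := fun p => v (cf d f p)) (Set.finite_range _).bddAbove p

theorem nf_nonneg {K : Type} [Field K] (v : AbsoluteValue K ℝ) (d : ℕ)
    (f : Fin 2 → MvPolynomial (Fin 2) K) : 0 ≤ nf v d f :=
  Real.iSup_nonneg fun _ => v.nonneg _

theorem nf_coeff {K : Type} [Field K] (v : AbsoluteValue K ℝ) {d : ℕ}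
    {f : Fin 2 → MvPolynomial (Fin 2) K} (hf : ∀ i, (f i).IsHomogeneous d) (i : Fin 2)
    (m : Fin 2 →₀ ℕ) : v ((f i).coeff m) ≤ nf v d f := by
  by_cases h0 : (f i).coeff m = 0
  · rw [h0, map_zero]
    exact nf_nonneg v d f
  · have h1 : m.weight 1 = d := hf i h0
    have h2 : m 0 + m 1 = d := by
      rw [← h1]
      simp [Finsupp.weight_apply, Finsupp.sum_fintype]
    have h3 := nf_le v d f (i, ⟨m 0, by omega⟩)
    have h4 : cf d f (i, ⟨m 0, by omega⟩) = (f i).coeff m := by
      simp only [cf]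
      congr 1
      ext j
      fin_cases j
      · simp
      · simp only [Finsupp.add_apply]
        simp
        omega
    rwa [h4] at h3

theorem cf_ne {K : Type} [Field K] {d : ℕ} (hd : 1 ≤ d)
    {f : Fin 2 → MvPolynomial (Fin 2) K} (hf : ∀ i, (f i).IsHomogeneous d) (h0 : rs f d ≠ 0) :
    cf d f ≠ 0 := by
  intro h
  have w0 : AbsoluteValue (AlgebraicClosure K) ℝ := by
    classical
    exact AbsoluteValue.trivial
  have v0 : AbsoluteValue K ℝ := by
    classical
    exact AbsoluteValue.trivial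
  have hx : (fun _ => 1 : Fin 2 → K) ≠ 0 := by
    intro hh
    have := congrFun hh 0
    simp at this
  have h1 := F4_iter_ne hd hf h0 w0 hx 1
  apply h1
  have h2 : nf v0 d f = 0 := by
    rw [nf, h]
    simp
  have h3 : ∀ i, f i = 0 := by
    intro i
    ext m
    have h4 := nf_coeff v0 hf i m
    rw [h2] at h4
    have := v0.eq_zero.1 (le_antisymm h4 (v0.nonneg _))
    simpa using this
  simp only [Function.iterate_one]
  funext i
  simp [ev, h3]

theorem nf_pos {K : Type} [Field K] (v : AbsoluteValue K ℝ) {d : ℕ}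
    {f : Fin 2 → MvPolynomial (Fin 2) K} (h : cf d f ≠ 0) : 0 < nf v d f := by
  obtain ⟨p, hp⟩ := Function.ne_iff.1 h
  exact lt_of_lt_of_le (v.pos hp) (nf_le v d f p)

/-- the archimedean upper bound -/
theorem arch_upK {K : Type} [Field K] {d : ℕ} {f : Fin 2 → MvPolynomial (Fin 2) K}
    (hf : ∀ i, (f i).IsHomogeneous d)
    (v : AbsoluteValue K ℝ) (w : AbsoluteValue (AlgebraicClosure K) ℝ) (hw : Ext v w)
    {z : Fin 2 → AlgebraicClosure K} (hz : nrm w z = 1) :
    nrm w (ev (fL K f) z) ≤ (mons d).card * nf v d f := by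
  have hz1 : ∀ i, w (z i) ≤ 1 := by
    intro i
    fin_cases i
    · exact (le_max_left _ _).trans hz.le
    · exact (le_max_right _ _).trans hz.le
  have hc : ∀ i m, w (MvPolynomial.coeff m (fL K f i)) ≤ nf v d f := by
    intro i m
    simp only [fL, MvPolynomial.coeff_map]
    rw [hw]
    exact nf_coeff v hf i m
  have key : ∀ i, w (ev (fL K f) z i) ≤ (mons d).card * nf v d f := by
    intro i
    simp only [ev]
    rw [MvPolynomial.eval_eq]
    refine (w.sum_le _ _).trans ?_
    have hs : (fL K f i).support ⊆ mons d := supp_sub ((hf i).map _)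
    calc ∑ m ∈ (fL K f i).support,
          w (MvPolynomial.coeff m (fL K f i) * ∏ j ∈ m.support, z j ^ m j)
        ≤ ∑ m ∈ (fL K f i).support, nf v d f := by
          refine Finset.sum_le_sum fun m _ => ?_
          rw [map_mul, map_prod]
          have h5 : ∏ j ∈ m.support, w (z j ^ m j) ≤ 1 := by
            refine Finset.prod_le_one (fun j _ => w.nonneg _) fun j _ => ?_
            rw [map_pow]
            exact pow_le_one₀ (w.nonneg _) (hz1 j)
          calc w (MvPolynomial.coeff m (fL K f i)) * ∏ j ∈ m.support, w (z j ^ m j)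
              ≤ nf v d f * 1 := mul_le_mul (hc i m) h5 (Finset.prod_nonneg fun j _ => w.nonneg _)
                (nf_nonneg v d f)
            _ = nf v d f := mul_one _
      _ = (fL K f i).support.card * nf v d f := by rw [Finset.sum_const, nsmul_eq_mul]
      _ ≤ (mons d).card * nf v d f := by
          refine mul_le_mul_of_nonneg_right ?_ (nf_nonneg v d f)
          exact_mod_cast Finset.card_le_card hs
  exact max_le (key 0) (key 1)

/-- the finite upper bound -/
theorem fin_upK {K : Type} [Field K] {d : ℕ} {f : Fin 2 → MvPolynomial (Fin 2) K}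
    (hf : ∀ i, (f i).IsHomogeneous d)
    (v : AbsoluteValue K ℝ) (w : AbsoluteValue (AlgebraicClosure K) ℝ)
    (hvw : Ext v w) (hna : IsNonarchimedean w)
    {z : Fin 2 → AlgebraicClosure K} (hz : nrm w z = 1) :
    nrm w (ev (fL K f) z) ≤ nf v d f := by
  have hz1 : ∀ i, w (z i) ≤ 1 := by
    intro i
    fin_cases i
    · exact (le_max_left _ _).trans hz.le
    · exact (le_max_right _ _).trans hz.le
  have key : ∀ i, w (ev (fL K f) z i) ≤ nf v d f := by
    intro i
    simp only [ev]
    rw [MvPolynomial.eval_eq]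
    rcases Finset.eq_empty_or_nonempty ((fL K f) i).support with he | hne
    · rw [he]
      simpa using nf_nonneg v d f
    obtain ⟨s, hs₁, hs₂⟩ :=
      hna.finset_image_add_of_nonempty
        (fun m => MvPolynomial.coeff m ((fL K f) i) * ∏ j ∈ m.support, z j ^ m j) hne
    refine hs₂.trans ?_
    rw [map_mul, map_prod]
    calc w (MvPolynomial.coeff s (fL K f i)) * ∏ j ∈ s.support, w (z j ^ s j)
        ≤ nf v d f * 1 := by
          refine mul_le_mul ?_ ?_ (Finset.prod_nonneg fun j _ => w.nonneg _) (nf_nonneg v d f)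
          · simp only [fL, MvPolynomial.coeff_map]
            rw [hvw]
            exact nf_coeff v hf i s
          · refine Finset.prod_le_one (fun j _ => w.nonneg _) fun j _ => ?_
            rw [map_pow]
            exact pow_le_one₀ (w.nonneg _) (hz1 j)
      _ = nf v d f := mul_one _
  exact max_le (key 0) (key 1)

/-- the logarithmic height of the coefficient vector -/
theorem logHeight_nf {K : Type} [Field K] [NumberField K] {d : ℕ}
    {f : Fin 2 → MvPolynomial (Fin 2) K} (hx : cf d f ≠ 0)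
    (F : Finset (FinitePlace K)) (hF : ∀ v : FinitePlace K, v ∉ F → nf v.val d f = 1) :
    Height.logHeight (cf d f) = ∑ v : InfinitePlace K, (v.mult : ℝ) * log (nf v.val d f) +
      ∑ v ∈ F, log (nf v.val d f) := by
  rw [Height.logHeight_eq_log_mulHeight, NumberField.mulHeight_eq hx]
  have e1 : (∏ v : InfinitePlace K, (⨆ i, v (cf d f i)) ^ v.mult) =
      ∏ v : InfinitePlace K, (nf v.val d f) ^ v.mult := rfl
  have e2 : (∏ᶠ v : FinitePlace K, ⨆ i, v (cf d f i)) = ∏ v ∈ F, nf v.val d f := by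
    rw [finprod_eq_prod_of_mulSupport_subset (s := F)]
    · rfl
    · intro v hv
      by_contra hvF
      exact hv (hF v hvF)
  rw [e1, e2, log_mul (Finset.prod_ne_zero_iff.2 fun v _ => pow_ne_zero _ (nf_pos _ hx).ne')
    (Finset.prod_ne_zero_iff.2 fun v _ => (nf_pos _ hx).ne'),
    log_prod (fun v _ => pow_ne_zero _ (nf_pos _ hx).ne'),
    log_prod (fun v _ => (nf_pos _ hx).ne')]
  simp [log_pow]

theorem finite_nf {K : Type} [Field K] [NumberField K] {d : ℕ}
    {f : Fin 2 → MvPolynomial (Fin 2) K} (hx : cf d f ≠ 0) :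
    ∃ S : Finset (FinitePlace K), (∀ v, v ∉ S → nf v.val d f = 1) ∧
      (∀ v, v ∉ S → ∀ i m, v.val ((f i).coeff m) ≤ 1) := by
  classical
  obtain ⟨p, hp⟩ := Function.ne_iff.1 hx
  refine ⟨(F4_finite_coeff f).toFinset ∪ (F4_finite_ne hp).toFinset, ?_, ?_⟩
  · intro v hv
    simp only [Finset.mem_union, Set.Finite.mem_toFinset, Set.mem_ofPred_eq, not_or,
      not_not] at hv
    refine le_antisymm (ciSup_le fun q => hv.1 _ _) ?_
    rw [← hv.2]
    exact nf_le _ _ _ _
  · intro v hv
    simp only [Finset.mem_union, Set.Finite.mem_toFinset, Set.mem_ofPred_eq, not_or,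
      not_not] at hv
    exact hv.1

/-- one step -/
theorem one_stepK (d D : ℕ) (hd : 1 ≤ d) : ∃ B : ℝ, 0 ≤ B ∧ ∀ (K : Type) [Field K]
    [NumberField K], Module.finrank ℚ K ≤ D →
    ∀ f : Fin 2 → MvPolynomial (Fin 2) K, (∀ i, (f i).IsHomogeneous d) →
    rs f d ≠ 0 → ∀ x : Fin 2 → K, x ≠ 0 →
      d * Height.logHeight x - ((2 * d - 1) * Height.logHeight (cf d f) + B) ≤
        Height.logHeight (ev f x) := by
  obtain ⟨B, hB0, hB⟩ := fib_bounds.{0} d hd
  have hd1 : (1 : ℝ) ≤ d := by exact_mod_cast hd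
  have hc0 : (0 : ℝ) < (mons d).card + 1 := by positivity
  have hlc : 0 ≤ log ((mons d).card + 1 : ℝ) :=
    log_nonneg (by have : (0 : ℝ) ≤ (mons d).card := Nat.cast_nonneg _; linarith)
  have hE0 : 0 ≤ (2 * d - 1) * log ((mons d).card + 1 : ℝ) + B := by
    have : 0 ≤ (2 * d - 1) * log ((mons d).card + 1 : ℝ) := mul_nonneg (by linarith) hlc
    linarith
  refine ⟨D * ((2 * d - 1) * log ((mons d).card + 1) + B), by positivity, ?_⟩
  intro K _ _ hK f hf h0 x hx
  have hcf := cf_ne hd hf h0
  -- extensions of places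
  choose wi hwi using fun v : InfinitePlace K => exists_ext_inf v
  choose wf hwf using fun v : FinitePlace K => exists_ext_fin v
  -- the finite set of places
  obtain ⟨S, hn1, hc1, hr, hnx⟩ : ∃ S : Finset (FinitePlace K),
      (∀ v, v ∉ S → nf v.val d f = 1) ∧
      (∀ v, v ∉ S → ∀ i m, v.val ((f i).coeff m) ≤ 1) ∧
      (∀ v, v ∉ S → v.val (rs f d) = 1) ∧ (∀ v, v ∉ S → nrm v.val x = 1) := by
    classical
    obtain ⟨S0, hS1, hS2⟩ := finite_nf hcf
    refine ⟨S0 ∪ ((F4_finite_ne h0).toFinset ∪ (F4_finite_nrm hx).toFinset), ?_, ?_, ?_, ?_⟩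
    all_goals
      intro v hv
      simp only [Finset.mem_union, Set.Finite.mem_toFinset, Set.mem_ofPred_eq, not_or,
        not_not] at hv
    · exact hS1 v hv.1
    · exact hS2 v hv.1
    · exact hv.2.1
    · exact hv.2.2
  have w0 : AbsoluteValue (AlgebraicClosure K) ℝ := by
    classical
    exact AbsoluteValue.trivial
  have hFx : ev f x ≠ 0 := F4_iter_ne hd hf h0 w0 hx 1
  have hFn : ∀ v, v ∉ S → nrm v.val (ev f x) = 1 := fun v hv =>
    F4_good hd hf h0 v (wf v) (hwf v) (hc1 v hv) (hr v hv) (hnx v hv)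
  rw [F4_logHeight hx S hnx, F4_logHeight hFx S hFn, logHeight_nf hcf S hn1]
  have hp := F4_product h0 S hr
  have hne : ∀ (w : AbsoluteValue (AlgebraicClosure K) ℝ),
      Nonempty {x : Fin 2 → AlgebraicClosure K // nrm w x = 1} := by
    intro w
    refine ⟨⟨![1, 0], ?_⟩⟩
    simp [nrm]
  -- infinite places
  have hI : ∀ v : InfinitePlace K, (v.mult : ℝ) * (d * log (nrm v.val x)) +
      (v.mult : ℝ) * log (v.val (rs f d)) -
      ((v.mult : ℝ) * ((2 * d - 1) * log (nf v.val d f)) +
        (v.mult : ℝ) * ((2 * d - 1) * log ((mons d).card + 1) + B)) ≤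
      (v.mult : ℝ) * log (nrm v.val (ev f x)) := by
    intro v
    rw [← mul_add, ← mul_add, ← mul_sub]
    refine mul_le_mul_of_nonneg_left ?_ (Nat.cast_nonneg _)
    have hfib := F4_fib hd hf h0 (wi v)
    obtain ⟨-, -, -, h4⟩ := hB _ _ _ _ hfib
    have h5 := low_all hfib h4 (F4_vL_ne hx)
    rw [F4_ev, F4_ext_nrm (hwi v), F4_ext_nrm (hwi v), F4_rs, hwi v] at h5
    refine le_trans ?_ h5
    have hS : Ssup (wi v) (ev (fL K f)) ≤ log ((mons d).card + 1) + log (nf v.val d f) := by
      have := hne (wi v)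
      rw [← log_mul hc0.ne' (nf_pos _ hcf).ne']
      refine ciSup_le fun z => ?_
      have hz : z.1 ≠ 0 := B1_ne_zero z.2
      refine log_le_log (F4_nrm_pos _ (fib_ne_zero hfib hz)) ?_
      refine (arch_upK hf v.val (wi v) (hwi v) z.2).trans ?_
      have := nf_pos v.val hcf
      nlinarith
    rw [tt]
    have h2d : 0 ≤ 2 * (d : ℝ) - 1 := by linarith
    have := mul_le_mul_of_nonneg_left hS h2d
    linarith
  have hFin : ∀ v ∈ S, d * log (nrm v.val x) + log (v.val (rs f d)) -
      (2 * d - 1) * log (nf v.val d f) ≤ log (nrm v.val (ev f x)) := by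
    intro v _
    have hna := ext_na v (wf v) (hwf v)
    have hfib := F4_fib hd hf h0 (wf v)
    have h4 := (fib_bounds_na (wf v) hna hd hfib).2
    have h5 := low_all hfib h4 (F4_vL_ne hx)
    rw [F4_ev, F4_ext_nrm (hwf v), F4_ext_nrm (hwf v), F4_rs, hwf v] at h5
    refine le_trans ?_ h5
    have hS : Ssup (wf v) (ev (fL K f)) ≤ log (nf v.val d f) := by
      have := hne (wf v)
      refine ciSup_le fun z => ?_
      have hz : z.1 ≠ 0 := B1_ne_zero z.2
      exact log_le_log (F4_nrm_pos _ (fib_ne_zero hfib hz))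
        (fin_upK hf v.val (wf v) (hwf v) hna z.2)
    rw [tt]
    have h2d : 0 ≤ 2 * (d : ℝ) - 1 := by linarith
    have := mul_le_mul_of_nonneg_left hS h2d
    linarith
  have h1 := Finset.sum_le_sum fun v (_ : v ∈ (Finset.univ : Finset (InfinitePlace K))) => hI v
  have h2 := Finset.sum_le_sum hFin
  rw [Finset.sum_sub_distrib, Finset.sum_add_distrib, Finset.sum_add_distrib,
    ← Finset.sum_mul] at h1
  rw [Finset.sum_sub_distrib, Finset.sum_add_distrib] at h2
  have h3 : ∑ v : InfinitePlace K, (v.mult : ℝ) ≤ D := by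
    have h := InfinitePlace.sum_mult_eq (K := K)
    have h' : ∑ v : InfinitePlace K, (v.mult : ℝ) = (Module.finrank ℚ K : ℝ) := by
      exact_mod_cast h
    rw [h']
    exact_mod_cast hK
  have h3' := mul_le_mul_of_nonneg_right h3 hE0
  have h4 : ∑ v : InfinitePlace K, (v.mult : ℝ) * (d * log (nrm v.val x)) =
      d * ∑ v : InfinitePlace K, (v.mult : ℝ) * log (nrm v.val x) := by
    rw [Finset.mul_sum]
    exact Finset.sum_congr rfl fun v _ => by ring
  have h5 : ∑ v : InfinitePlace K, (v.mult : ℝ) * ((2 * d - 1) * log (nf v.val d f)) =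
      (2 * d - 1) * ∑ v : InfinitePlace K, (v.mult : ℝ) * log (nf v.val d f) := by
    rw [Finset.mul_sum]
    exact Finset.sum_congr rfl fun v _ => by ring
  rw [h4, h5] at h1
  rw [← Finset.mul_sum, ← Finset.mul_sum] at h2
  linarith

theorem htD : S_htD := by
  intro d D hd
  obtain ⟨B, hB0, hB⟩ := one_stepK d D (by omega)
  have hd2 : (2 : ℝ) ≤ d := by exact_mod_cast hd
  have hl2 : 0 < log 2 := log_pos (by norm_num)
  obtain ⟨A, hA⟩ := exists_nat_ge (2 * d - 1 + B / log 2)
  refine ⟨A, ?_⟩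
  intro K _ _ hK X hX2 f hf hX h0 v hv h hlim
  have hX2' : (2 : ℝ) ≤ X := by exact_mod_cast hX2
  have hlX : log 2 ≤ log X := log_le_log (by norm_num) hX2'
  set G : ℝ := A * log X with hG
  have hG0 : 0 ≤ G := mul_nonneg (Nat.cast_nonneg _) (hl2.le.trans hlX)
  have hGE : (2 * d - 1) * Height.logHeight (cf d f) + B ≤ G := by
    have h0' : Height.logHeight (cf d f) ≤ log X := by
      rw [Height.logHeight_eq_log_mulHeight]
      exact log_le_log (Height.mulHeight_pos _) hX
    have h1 : B ≤ B / log 2 * log X := by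
      rw [div_mul_eq_mul_div, le_div_iff₀ hl2]
      exact mul_le_mul_of_nonneg_left hlX hB0
    have h2 : (2 * d - 1 + B / log 2) * log X ≤ A * log X :=
      mul_le_mul_of_nonneg_right hA (hl2.le.trans hlX)
    have h3 := mul_le_mul_of_nonneg_left h0' (by linarith : (0 : ℝ) ≤ 2 * d - 1)
    rw [hG]
    nlinarith
  have w0 : AbsoluteValue (AlgebraicClosure K) ℝ := by
    classical
    exact AbsoluteValue.trivial
  have hit : ∀ n : ℕ, (ev f)^[n] v ≠ 0 := fun n =>
    F4_iter_ne (by omega) hf h0 w0 hv n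
  have hmain : ∀ j : ℕ, Height.logHeight v - G * (1 - 1 / (d : ℝ) ^ j) ≤
      Real.log (Height.mulHeight ((ev f)^[j] v)) / (d : ℝ) ^ j := by
    intro j
    induction j with
    | zero => simp [Height.logHeight_eq_log_mulHeight]
    | succ j ih =>
      have h1 := hB K hK f hf h0 _ (hit j)
      rw [← Function.iterate_succ_apply' (ev f) j v] at h1
      rw [← Height.logHeight_eq_log_mulHeight] at ih ⊢
      have hp : (0 : ℝ) < (d : ℝ) ^ j := by positivity
      have hp1 : (0 : ℝ) < (d : ℝ) ^ (j + 1) := by positivity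
      rw [le_div_iff₀ hp1]
      rw [le_div_iff₀ hp] at ih
      have h2 : (Height.logHeight v - G * (1 - 1 / (d : ℝ) ^ j)) * (d : ℝ) ^ j =
          Height.logHeight v * (d : ℝ) ^ j - G * ((d : ℝ) ^ j - 1) := by
        field_simp
      have h3 : (Height.logHeight v - G * (1 - 1 / (d : ℝ) ^ (j + 1))) * (d : ℝ) ^ (j + 1) =
          Height.logHeight v * (d : ℝ) ^ (j + 1) - G * ((d : ℝ) ^ (j + 1) - 1) := by
        field_simp
      rw [h2] at ih
      rw [h3]
      have h4 := mul_le_mul_of_nonneg_left ih (by linarith : (0 : ℝ) ≤ d)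
      rw [pow_succ]
      nlinarith
  refine le_trans ?_ (add_le_add_left (ge_of_tendsto' (b := Height.logHeight v - G) hlim ?_) _)
  · rw [Height.logHeight_eq_log_mulHeight]
    linarith
  · intro j
    refine le_trans ?_ (hmain j)
    have hp : (0 : ℝ) < 1 / (d : ℝ) ^ j := by positivity
    nlinarith

end Pool.Agent.Q210.FX
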