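import Pool.Agent.Q256.FX.Nst

/-!
# Representatives of polynomials over the field of germs
-/

set_option autoImplicit false

open MvPolynomial Filter

namespace Pool.Agent.Q210.FX

open Pool.Agent.Q256.FX

variable {𝒰 : Ultrafilter ℕ} {ι : Type} {X : ℕ → ℕ}

/-- the value of a sum of monomials -/
def sm {m : ℕ} {τ : Type} (S : Finset τ) (e : τ → (Fin m →₀ ℕ)) (c : τ → ℚ) (z : Fin m → ℚ) : ℚ :=
  ∑ t ∈ S, c t * ∏ i, z i ^ e t i

lemma gm_sum (w : UF 𝒰 ι) {τ : Type} (S : Finset τ) (f : τ → ℕ × ι → ℚ) :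
    gm w (fun ω => ∑ t ∈ S, f t ω) = ∑ t ∈ S, gm w (f t) := by
  have h := map_sum (Germ.coeRingHom (R := ℚ) (w.W : Filter (ℕ × ι))) f S
  have h2 : (fun ω => ∑ t ∈ S, f t ω) = ∑ t ∈ S, f t := by
    funext ω
    rw [Finset.sum_apply]
  rw [h2]
  exact h

lemma gm_prod (w : UF 𝒰 ι) {τ : Type} (S : Finset τ) (f : τ → ℕ × ι → ℚ) :
    gm w (fun ω => ∏ t ∈ S, f t ω) = ∏ t ∈ S, gm w (f t) := by
  have h := map_prod (Germ.coeRingHom (R := ℚ) (w.W : Filter (ℕ × ι))) f S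
  have h2 : (fun ω => ∏ t ∈ S, f t ω) = ∏ t ∈ S, f t := by
    funext ω
    rw [Finset.prod_apply]
  rw [h2]
  exact h

lemma gm_mul (w : UF 𝒰 ι) (f g : ℕ × ι → ℚ) : gm w (fun ω => f ω * g ω) = gm w f * gm w g := rfl

lemma gm_pow (w : UF 𝒰 ι) (f : ℕ × ι → ℚ) (k : ℕ) : gm w (fun ω => f ω ^ k) = gm w f ^ k :=
  map_pow (Germ.coeRingHom (R := ℚ) (w.W : Filter (ℕ × ι))) f k

lemma gm_zero (w : UF 𝒰 ι) : gm w (fun _ => (0 : ℚ)) = 0 := rfl

lemma gm_eq_zero (w : UF 𝒰 ι) {f : ℕ × ι → ℚ} : gm w f = 0 ↔ ∀ᶠ ω in (w.W : Filter (ℕ × ι)), f ω = 0 :=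
  gm_eq w

lemma gm_ne_zero (w : UF 𝒰 ι) {f : ℕ × ι → ℚ} : gm w f ≠ 0 ↔
    ∀ᶠ ω in (w.W : Filter (ℕ × ι)), f ω ≠ 0 := by
  rw [Ne, gm_eq_zero, Ultrafilter.eventually_not]

lemma algMap (w : UF 𝒰 ι) (c' : kf 𝒰 X) (c : ℕ → ℚ)
    (h : (c' : Germ (𝒰 : Filter ℕ) ℚ) = (c : Germ (𝒰 : Filter ℕ) ℚ)) :
    algebraMap (kf 𝒰 X) (RR w ℚ) c' = gm w (fun ω => c ω.1) := by
  change pull w ℚ (c' : Germ (𝒰 : Filter ℕ) ℚ) = _
  rw [h, pull_coe]
  rfl

/-- evaluation of polynomials over the field of germs -/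
lemma aeval_gm {m : ℕ} (w : UF 𝒰 ι) (g : Fin m → ℕ × ι → ℚ) {τ : Type} (S : Finset τ)
    (e : τ → (Fin m →₀ ℕ)) (c' : τ → kf 𝒰 X) (c : τ → ℕ → ℚ)
    (hc : ∀ t ∈ S, (c' t : Germ (𝒰 : Filter ℕ) ℚ) = (c t : Germ (𝒰 : Filter ℕ) ℚ)) :
    aeval (fun i => gm w (g i)) (∑ t ∈ S, monomial (e t) (c' t)) =
      gm w (fun ω => sm S e (fun t => c t ω.1) (fun i => g i ω)) := by
  unfold sm
  rw [gm_sum, map_sum]
  refine Finset.sum_congr rfl fun t ht => ?_
  rw [aeval_monomial, algMap w (c' t) (c t) (hc t ht), Finsupp.prod_fintype _ _ (fun i => pow_zero _),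
    gm_mul, gm_prod]
  congr 1

/-- evaluation of explicit polynomials over the integers -/
lemma aeval_int {m : ℕ} {τ : Type} (S : Finset τ) (e : τ → (Fin m →₀ ℕ)) (a : τ → ℤ)
    (z : Fin m → ℚ) : aeval z (∑ t ∈ S, monomial (e t) (a t)) = sm S e (fun t => (a t : ℚ)) z := by
  unfold sm
  rw [map_sum]
  refine Finset.sum_congr rfl fun t _ => ?_
  rw [aeval_monomial, Finsupp.prod_fintype _ _ (fun i => pow_zero _)]
  rfl

lemma sm_smul {m : ℕ} {τ : Type} (S : Finset τ) (e : τ → (Fin m →₀ ℕ)) (c : τ → ℚ) (D : ℚ)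
    (z : Fin m → ℚ) : sm S e (fun t => c t * D) z = D * sm S e c z := by
  unfold sm
  rw [Finset.mul_sum]
  exact Finset.sum_congr rfl fun t _ => by ring

lemma pderiv_sum {R : Type*} [CommRing R] {m : ℕ} {τ : Type} (S : Finset τ)
    (e : τ → (Fin m →₀ ℕ)) (a : τ → R) (i : Fin m) :
    pderiv i (∑ t ∈ S, monomial (e t) (a t)) =
      ∑ t ∈ S, monomial (e t - Finsupp.single i 1) (a t * (e t i : R)) := by
  rw [map_sum]
  exact Finset.sum_congr rfl fun t _ => pderiv_monomial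

/-- the height of a sequence -/
def Bd (𝒰 : Ultrafilter ℕ) (X : ℕ → ℕ) (c : ℕ → ℚ) : Prop :=
  ∃ C : ℕ, ∀ᶠ N in (𝒰 : Filter ℕ), hq (c N) ≤ (X N + 2) ^ C

lemma exists_rep (c' : kf 𝒰 X) : ∃ c : ℕ → ℚ,
    (c' : Germ (𝒰 : Filter ℕ) ℚ) = (c : Germ (𝒰 : Filter ℕ) ℚ) ∧ Bd 𝒰 X c := c'.2

/-- integral representatives: sequences of integral polynomials -/
lemma exists_int (hX : ∀ N, 2 ≤ X N) {m : ℕ} (Ψ : MvPolynomial (Fin m) (kf 𝒰 X)) :
    ∃ (c : (Fin m →₀ ℕ) → ℕ → ℚ) (D : ℕ → ℚ) (Q : ℕ → MvPolynomial (Fin m) ℤ) (B : ℕ),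
      (∀ μ, ((Ψ.coeff μ : kf 𝒰 X) : Germ (𝒰 : Filter ℕ) ℚ) = (c μ : Germ (𝒰 : Filter ℕ) ℚ)) ∧
      (∀ N, D N ≠ 0) ∧ (∀ N, (Q N).totalDegree ≤ B) ∧
      (∀ᶠ N in (𝒰 : Filter ℕ), ∀ μ, ((Q N).coeff μ).natAbs ≤ X N ^ B) ∧
      (∀ N z, aeval z (Q N) = D N * sm Ψ.support id (fun μ => c μ N) z) ∧
      (∀ N z i, aeval z (pderiv i (Q N)) =
        D N * sm Ψ.support (fun μ => μ - Finsupp.single i 1) (fun μ => c μ N * (μ i : ℚ)) z) := by
  classical
  choose c hc hB using fun μ => exists_rep (Ψ.coeff μ)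
  choose C hC using hB
  set D : ℕ → ℕ := fun N => ∏ μ ∈ Ψ.support, (c μ N).den with hD
  have hDpos : ∀ N, 0 < D N := fun N => Finset.prod_pos fun μ _ => (c μ N).den_pos
  have hint : ∀ N, ∀ μ ∈ Ψ.support, (((c μ N * D N).num : ℤ) : ℚ) = c μ N * D N := by
    intro N μ hμ
    have h1 : (c μ N).den ∣ D N := Finset.dvd_prod_of_mem (fun μ => (c μ N).den) hμ
    obtain ⟨r, hr⟩ := h1
    have h2 : c μ N * D N = (((c μ N).num * r : ℤ) : ℚ) := by
      rw [hr]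
      push_cast
      have h3 := Rat.mul_den_eq_num (c μ N)
      rw [← mul_assoc, h3]
    rw [h2, Rat.num_intCast]
  set Q : ℕ → MvPolynomial (Fin m) ℤ := fun N =>
    ∑ μ ∈ Ψ.support, monomial (id μ) ((c μ N * D N).num) with hQ
  set B1 : ℕ := ∑ μ ∈ Ψ.support, C μ with hB1
  refine ⟨c, fun N => (D N : ℚ), Q, Ψ.totalDegree + 4 * B1, hc, fun N => ?_, fun N => ?_, ?_, ?_, ?_⟩
  · have := hDpos N
    positivity
  · refine (totalDegree_finsetSum _ _).trans ?_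
    refine Finset.sup_le fun μ hμ => ?_
    refine (totalDegree_monomial_le _ _).trans ?_
    exact (le_totalDegree hμ).trans (Nat.le_add_right _ _)
  · have hall : ∀ᶠ N in (𝒰 : Filter ℕ), ∀ μ ∈ Ψ.support, hq (c μ N) ≤ (X N + 2) ^ C μ :=
      (eventually_all_finset _).mpr fun μ _ => hC μ
    filter_upwards [hall] with N hN
    intro μ
    have hX2 := hX N
    have hXX : X N + 2 ≤ X N ^ 2 := by nlinarith
    have hDN : D N ≤ (X N + 2) ^ B1 := by
      rw [hD, hB1]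
      simp only
      rw [← Finset.prod_pow_eq_pow_sum]
      exact Finset.prod_le_prod' fun μ hμ => (le_max_right _ _).trans (hN μ hμ)
    have hcoef : (Q N).coeff μ = if μ ∈ Ψ.support then (c μ N * D N).num else 0 := by
      rw [hQ]
      simp only [id, coeff_sum, coeff_monomial]
      rw [Finset.sum_ite_eq' Ψ.support μ]
    rw [hcoef]
    split_ifs with hμ
    · have h1 : ((c μ N * D N).num).natAbs ≤ hq (c μ N) * D N := by
        have h2 := hint N μ hμ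
        have h3 : (c μ N).den ∣ D N := Finset.dvd_prod_of_mem (fun μ => (c μ N).den) hμ
        obtain ⟨r, hr⟩ := h3
        have h4 : c μ N * D N = (((c μ N).num * r : ℤ) : ℚ) := by
          rw [hr]
          push_cast
          have h3 := Rat.mul_den_eq_num (c μ N)
          rw [← mul_assoc, h3]
        rw [h4, Rat.num_intCast, Int.natAbs_mul, Int.natAbs_natCast]
        refine Nat.mul_le_mul (le_max_left _ _) ?_
        rw [hr]
        exact Nat.le_mul_of_pos_left _ (c μ N).den_pos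
      calc ((c μ N * D N).num).natAbs ≤ hq (c μ N) * D N := h1
        _ ≤ (X N + 2) ^ B1 * (X N + 2) ^ B1 := by
          refine Nat.mul_le_mul ((hN μ hμ).trans ?_) hDN
          refine Nat.pow_le_pow_right (by omega) ?_
          exact Finset.single_le_sum (f := C) (fun _ _ => Nat.zero_le _) hμ
        _ = (X N + 2) ^ (2 * B1) := by rw [two_mul, pow_add]
        _ ≤ (X N ^ 2) ^ (2 * B1) := Nat.pow_le_pow_left hXX _
        _ = X N ^ (4 * B1) := by rw [← pow_mul]; congr 1; ring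
        _ ≤ X N ^ (Ψ.totalDegree + 4 * B1) := Nat.pow_le_pow_right (by omega) (Nat.le_add_left _ _)
    · simp
  · intro N z
    rw [hQ]
    simp only
    rw [aeval_int, ← sm_smul]
    unfold sm
    exact Finset.sum_congr rfl fun μ hμ => by
      beta_reduce
      rw [hint N μ hμ]
  · intro N z i
    rw [hQ]
    simp only
    rw [pderiv_sum, map_sum]
    unfold sm
    rw [Finset.mul_sum]
    refine Finset.sum_congr rfl fun μ hμ => ?_
    rw [aeval_monomial, Finsupp.prod_fintype _ _ (fun i => pow_zero _)]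
    have h1 : (algebraMap ℤ ℚ) ((c μ N * D N).num * ((id μ : Fin m →₀ ℕ) i : ℤ)) =
        (D N : ℚ) * (c μ N * (μ i : ℚ)) := by
      rw [map_mul]
      change ((c μ N * D N).num : ℚ) * (((μ i : ℕ) : ℤ) : ℚ) = _
      rw [hint N μ hμ]
      push_cast
      ring
    rw [h1]
    simp only [id]
    ring

/-- representatives for evaluation -/
lemma exists_ev {m : ℕ} (P : MvPolynomial (Fin m) (kf 𝒰 X)) :
    ∃ c : (Fin m →₀ ℕ) → ℕ → ℚ, ∀ (w : UF 𝒰 ι) (g : Fin m → ℕ × ι → ℚ),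
      aeval (fun i => gm w (g i)) P =
        gm w (fun ω => sm P.support id (fun μ => c μ ω.1) (fun i => g i ω)) := by
  choose c hc _ using fun μ => exists_rep (P.coeff μ)
  refine ⟨c, fun w g => ?_⟩
  have h := aeval_gm w g P.support id (fun μ => P.coeff μ) c (fun μ _ => hc μ)
  rw [← h]
  congr 1
  exact (support_sum_monomial_coeff P).symm

lemma kf_charZero (𝒰 : Ultrafilter ℕ) (X : ℕ → ℕ) : CharZero (kf 𝒰 X) := by
  have hG : CharZero (Germ (𝒰 : Filter ℕ) ℚ) := by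
    refine charZero_of_inj_zero fun n hn => ?_
    have h1 : ((n : ℕ) : Germ (𝒰 : Filter ℕ) ℚ) = ((fun _ => (n : ℚ)) : ℕ → ℚ) := by
      have := map_natCast (Germ.coeRingHom (R := ℚ) (𝒰 : Filter ℕ)) n
      rw [← this]
      rfl
    rw [h1] at hn
    have h2 : ∀ᶠ N in (𝒰 : Filter ℕ), (n : ℚ) = 0 := Germ.coe_eq.1 hn
    obtain ⟨N, hN⟩ := h2.exists
    exact_mod_cast hN
  refine charZero_of_inj_zero fun n hn => ?_
  have h1 := congrArg (kf 𝒰 X).subtype hn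
  rw [map_natCast, map_zero] at h1
  exact_mod_cast h1

end Pool.Agent.Q210.FX
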