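import Pool.Agent.Q210.FX.MainA
import Pool.Agent.Q210.FX.MainB
import Pool.Agent.Q256.FX.Stm

/-!
# The nonstandard determinant method
-/

set_option autoImplicit false

open MvPolynomial Filter

namespace Pool.Agent.Q210.FX

open Pool.Agent.Q256.FX

lemma small_of_subsingleton {ι : Type} {𝒰 : Ultrafilter ℕ} {X : ℕ → ℕ} (hX : ∀ N, 2 ≤ X N) {a : ℕ}
    {B : Set (ℕ × ι)} (hB : ∀ N, {s | (N, s) ∈ B}.Subsingleton) : Small 𝒰 X a B := by
  refine ⟨1, Eventually.of_forall fun N => ⟨(hB N).finite, ?_⟩⟩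
  have h1 : {s | (N, s) ∈ B}.ncard ≤ 1 := by
    haveI : Finite {s | (N, s) ∈ B} := (hB N).finite
    rw [Set.ncard_le_one_iff_subsingleton]
    exact hB N
  calc {s | (N, s) ∈ B}.ncard ^ a ≤ 1 ^ a := Nat.pow_le_pow_left h1 a
    _ = 1 := one_pow a
    _ ≤ 1 * X N := by have := hX N; omega

/-- the arithmetic of the exponents -/
lemma exp_arith {t t' a n C C' X : ℕ} (ha : 1 ≤ a)
    (h1 : t ^ (2 * a * (2 * (n + 1))) ≤ C * X ^ (2 * (n + 1)) * t' ^ (2 * a * (2 * (n + 1))))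
    (h2 : t' ^ (2 * a) ≤ C' * X) : t ^ a ≤ (C * C' ^ (2 * (n + 1)) + 1) * X := by
  set m' := 2 * (n + 1) with hm'
  have hm0 : 2 * m' ≠ 0 := by omega
  rw [← Nat.pow_le_pow_iff_left hm0]
  have e1 : (t ^ a) ^ (2 * m') = t ^ (2 * a * m') := by
    rw [← pow_mul]; congr 1; ring
  have e2 : t' ^ (2 * a * m') = (t' ^ (2 * a)) ^ m' := by rw [← pow_mul]
  rw [e1]
  calc t ^ (2 * a * m') ≤ C * X ^ m' * t' ^ (2 * a * m') := h1
    _ = C * X ^ m' * (t' ^ (2 * a)) ^ m' := by rw [e2]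
    _ ≤ C * X ^ m' * (C' * X) ^ m' := Nat.mul_le_mul_left _ (Nat.pow_le_pow_left h2 m')
    _ = (C * C' ^ m') * X ^ (2 * m') := by rw [mul_pow, two_mul, pow_add]; ring
    _ ≤ (C * C' ^ m' + 1) ^ (2 * m') * X ^ (2 * m') := by
      refine Nat.mul_le_mul_right _ ?_
      calc C * C' ^ m' ≤ C * C' ^ m' + 1 := Nat.le_succ _
        _ ≤ (C * C' ^ m' + 1) ^ (2 * m') := Nat.le_self_pow hm0 _
    _ = ((C * C' ^ m' + 1) * X) ^ (2 * m') := by rw [mul_pow]

theorem main (h1 : S_cls) (h2 : S_lg) : S_main := by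
  intro ι 𝒰 X hXt hX2 M Z T A0 a0 ha0 hTfin hTh hTs
  classical
  have hcz : CharZero (kf 𝒰 X) := kf_charZero 𝒰 X
  -- good pairs
  set Good : ℕ → UF 𝒰 ι → Prop := fun a w => 1 ≤ a ∧ T ∈ w.W ∧ ∀ B, Small 𝒰 X a B → B ∉ w.W
    with hGood
  set I : UF 𝒰 ι → Ideal (MvPolynomial (Fin M) (kf 𝒰 X)) := fun w =>
    RingHom.ker (aeval (fun j => gm w (Z j)) : MvPolynomial (Fin M) (kf 𝒰 X) →ₐ[kf 𝒰 X] RR w ℚ)
    with hI
  have hImem : ∀ w P, P ∈ I w ↔ aeval (fun j => gm w (Z j)) P = 0 := fun w P => Iff.rfl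
  obtain ⟨w0, hw0T, hw0⟩ := h2 ι 𝒰 X T a0 ha0 hTs
  obtain ⟨_, ⟨a, w, hgood, rfl⟩, hmax⟩ :=
    (set_has_maximal_iff_noetherian (R := MvPolynomial (Fin M) (kf 𝒰 X))
      (M := MvPolynomial (Fin M) (kf 𝒰 X))).2 inferInstance
      {J | ∃ a w, Good a w ∧ J = I w} ⟨I w0, a0, w0, ⟨ha0, hw0T, hw0⟩, rfl⟩
  obtain ⟨ha, hwT, hwS⟩ := hgood
  -- the set T1
  obtain ⟨S, hS⟩ : (I w).FG := IsNoetherian.noetherian (I w)
  choose cP hcP using fun P : MvPolynomial (Fin M) (kf 𝒰 X) => exists_ev (ι := ι) P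
  set T1 : Set (ℕ × ι) := {ω | ω ∈ T ∧ ∀ P ∈ S,
    sm P.support id (fun μ => cP P μ ω.1) (fun i => Z i ω) = 0} with hT1
  have hwT1 : T1 ∈ w.W := by
    have h3 : ∀ᶠ ω in (w.W : Filter (ℕ × ι)), ∀ P ∈ S,
        sm P.support id (fun μ => cP P μ ω.1) (fun i => Z i ω) = 0 := by
      rw [eventually_all_finset]
      intro P hP
      rw [← gm_eq_zero, ← hcP P w Z]
      have : P ∈ I w := by rw [← hS]; exact Submodule.subset_span hP
      exact this
    exact (show ∀ᶠ ω in (w.W : Filter (ℕ × ι)), ω ∈ T from hwT).and h3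
  have hkey : ∀ a' w', Good a' w' → T1 ∈ w'.W → I w = I w' := by
    intro a' w' hg' hT1'
    have hle : I w ≤ I w' := by
      rw [← hS]
      refine Submodule.span_le.2 fun P hP => ?_
      change aeval (fun j => gm w' (Z j)) P = 0
      rw [hcP P w' Z, gm_eq_zero]
      have h3 : ∀ᶠ ω in (w'.W : Filter (ℕ × ι)), ω ∈ T1 := hT1'
      filter_upwards [h3] with ω hω
      exact hω.2 P hP
    exact eq_of_le_of_not_lt hle (hmax _ ⟨a', w', hg', rfl⟩)
  refine ⟨w, hwT, fun B hB => hwS B (small_of_subsingleton hX2 hB), ?_⟩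
  obtain ⟨n, J, hJ, hJalg⟩ := exists_basis (k := kf 𝒰 X) (fun j => gm w (Z j))
  refine ⟨n, J, hJ, hJalg, ?_⟩
  intro A
  obtain ⟨b, hb⟩ := h1 n (max A A0) (2 * a * (2 * (n + 1))) (by
    have : 1 ≤ 2 * a := by omega
    nlinarith)
  refine ⟨b, ?_⟩
  intro g hg hgh
  -- the numerator and the denominator
  obtain ⟨α, β, hβ0, hαβ⟩ : ∃ α β : MvPolynomial (Fin M) (kf 𝒰 X),
      aeval (fun j => gm w (Z j)) β ≠ 0 ∧
      gm w g = aeval (fun j => gm w (Z j)) α / aeval (fun j => gm w (Z j)) β := by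
    rw [IntermediateField.mem_adjoin_range_iff] at hg
    obtain ⟨α, β, hαβ⟩ := hg
    by_cases hβ : aeval (fun j => gm w (Z j)) β = 0
    · refine ⟨0, 1, by rw [map_one]; exact one_ne_zero, ?_⟩
      rw [hαβ, hβ, div_zero, map_zero, zero_div]
    · exact ⟨α, β, hβ, hαβ⟩
  -- the relation
  have halgp : ∀ P : MvPolynomial (Fin M) (kf 𝒰 X),
      IsAlgebraic (IntermediateField.adjoin (kf 𝒰 X) (Set.range fun i => gm w (Z (J i))))
        (aeval (fun j => gm w (Z j)) P) := by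
    intro P
    induction P using MvPolynomial.induction_on with
    | C c =>
      rw [aeval_C, IsScalarTower.algebraMap_apply (kf 𝒰 X)
        (IntermediateField.adjoin (kf 𝒰 X) (Set.range fun i => gm w (Z (J i)))) (RR w ℚ)]
      exact isAlgebraic_algebraMap _
    | add p q hp hq => rw [map_add]; exact hp.add hq
    | mul_X p i hp => rw [map_mul, aeval_X]; exact hp.mul (hJalg i)
  have halg : IsAlgebraic (IntermediateField.adjoin (kf 𝒰 X) (Set.range fun i => gm w (Z (J i))))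
      (gm w g) := by
    rw [hαβ, div_eq_mul_inv]
    exact (halgp α).mul (halgp β).inv
  obtain ⟨Ψ, hΨ0, hΨ1⟩ := exists_rel _ _ halg
  obtain ⟨c, D, Q, B, hc, hD, hQdeg, hQco, hQ, hQ'⟩ := exists_int hX2 Ψ
  set pt : ℕ × ι → Fin (n + 1) → ℚ := fun ω => cn (g ω) (fun i => Z (J i) ω) with hpt
  have hptg : ∀ w' : UF 𝒰 ι, (fun i => gm w' (fun ω => pt ω i)) =
      cn (gm w' g) (fun i => gm w' (Z (J i))) := by
    intro w'
    funext i
    refine Fin.cases ?_ (fun i => ?_) i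
    · rfl
    · rfl
  have hΨe : gm w (fun ω => sm Ψ.support id (fun μ => c μ ω.1) (pt ω)) = 0 := by
    have h3 := aeval_gm w (fun i ω => pt ω i) Ψ.support id (fun μ => Ψ.coeff μ) c
      (fun μ _ => hc μ)
    rw [hptg] at h3
    rw [← h3]
    have h4 : (∑ t ∈ Ψ.support, monomial (id t) (Ψ.coeff t)) = Ψ := support_sum_monomial_coeff Ψ
    rw [h4]
    exact hΨ0
  have hΨe' : gm w (fun ω => sm Ψ.support (fun μ => μ - Finsupp.single 0 1)
      (fun μ => c μ ω.1 * (μ 0 : ℚ)) (pt ω)) ≠ 0 := by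
    have h3 := aeval_gm w (fun i ω => pt ω i) Ψ.support (fun μ => μ - Finsupp.single 0 1)
      (fun μ => Ψ.coeff μ * (μ 0 : kf 𝒰 X)) (fun μ N => c μ N * (μ 0 : ℚ)) (fun μ _ => by
        rw [Subfield.coe_mul, hc μ]
        have h4 : (((μ 0 : ℕ) : kf 𝒰 X) : Germ (𝒰 : Filter ℕ) ℚ) =
            ((fun _ => ((μ 0 : ℕ) : ℚ)) : ℕ → ℚ) := by
          have h5 := map_natCast (Germ.coeRingHom (R := ℚ) (𝒰 : Filter ℕ)) (μ 0)
          have h6 := map_natCast (kf 𝒰 X).subtype (μ 0)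
          exact h6.trans (h5.symm.trans rfl)
        rw [h4]
        rfl)
    rw [hptg] at h3
    rw [← h3]
    have h4 : pderiv 0 Ψ = ∑ t ∈ Ψ.support, monomial (t - Finsupp.single 0 1)
        (Ψ.coeff t * (t 0 : kf 𝒰 X)) := by
      conv_lhs => rw [← support_sum_monomial_coeff Ψ]
      exact pderiv_sum Ψ.support id (fun μ => Ψ.coeff μ) 0
    rw [← h4]
    exact hΨ1
  set eα : ℕ × ι → ℚ := fun ω => sm α.support id (fun μ => cP α μ ω.1) (fun i => Z i ω) with heα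
  set eβ : ℕ × ι → ℚ := fun ω => sm β.support id (fun μ => cP β μ ω.1) (fun i => Z i ω) with heβ
  have hα' : ∀ w' : UF 𝒰 ι, aeval (fun j => gm w' (Z j)) α = gm w' eα := fun w' => hcP α w' Z
  have hβ' : ∀ w' : UF 𝒰 ι, aeval (fun j => gm w' (Z j)) β = gm w' eβ := fun w' => hcP β w' Z
  -- the set T2
  set T2 : Set (ℕ × ι) := {ω | ω ∈ T1 ∧ sm Ψ.support id (fun μ => c μ ω.1) (pt ω) = 0 ∧
    sm Ψ.support (fun μ => μ - Finsupp.single 0 1) (fun μ => c μ ω.1 * (μ 0 : ℚ)) (pt ω) ≠ 0 ∧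
    eβ ω ≠ 0 ∧ g ω = eα ω / eβ ω ∧ hq (g ω) ≤ X ω.1 ^ A} with hT2
  have hwT2 : T2 ∈ w.W := by
    have h3 : ∀ᶠ ω in (w.W : Filter (ℕ × ι)), ω ∈ T1 := hwT1
    have h4 := (gm_eq_zero w).1 hΨe
    have h5 := (gm_ne_zero w).1 hΨe'
    have h6 : ∀ᶠ ω in (w.W : Filter (ℕ × ι)), eβ ω ≠ 0 := by
      rw [← gm_ne_zero, ← hβ']
      exact hβ0
    have h7 : ∀ᶠ ω in (w.W : Filter (ℕ × ι)), g ω = eα ω / eβ ω := by
      rw [hα', hβ'] at hαβ
      have h8 : gm w g = gm w (fun ω => eα ω / eβ ω) := hαβ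
      exact (gm_eq w).1 h8
    filter_upwards [h3, h4, h5, h6, h7, hgh] with ω a1 a2 a3 a4 a5 a6
    exact ⟨a1, a2, a3, a4, a5, a6⟩
  have hT2s : ¬ Small 𝒰 X a T2 := fun h => hwS T2 h hwT2
  have hT2T : ∀ ω ∈ T2, ω ∈ T := fun ω hω => hω.1.1
  have hfin : ∀ N, {s | (N, s) ∈ T2}.Finite := fun N => (hTfin N).subset fun s hs => hT2T _ hs
  set TF : ℕ → Finset ι := fun N => (hfin N).toFinset with hTF
  have hTFm : ∀ N s, s ∈ TF N ↔ (N, s) ∈ T2 := by
    intro N s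
    rw [hTF]
    simp only [Set.Finite.mem_toFinset, Set.mem_setOf_eq]
  obtain ⟨C, X0, hcls⟩ := hb B
  have hall : ∀ N, ∃ (T' : Finset ι) (F : MvPolynomial (Fin (n + 1)) ℤ), T' ⊆ TF N ∧ F ≠ 0 ∧
      F.totalDegree ≤ b ∧ (∀ s ∈ T', aeval (pt (N, s)) F = 0) ∧
      (X0 ≤ X N → (∀ μ, ((Q N).coeff μ).natAbs ≤ X N ^ B) →
        (TF N).card ^ (2 * a * (2 * (n + 1))) ≤
          C * X N ^ (2 * (n + 1)) * T'.card ^ (2 * a * (2 * (n + 1))) ∧
        ∀ μ, (F.coeff μ).natAbs ≤ X N ^ C) := by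
    intro N
    by_cases hN : X0 ≤ X N ∧ ∀ μ, ((Q N).coeff μ).natAbs ≤ X N ^ B
    · have hX1 : 1 ≤ X N := by have := hX2 N; omega
      obtain ⟨T', hT', hcard, F, hF0, hFd, hFc, hFz⟩ := hcls (X N) hN.1 ι (TF N)
        (fun s i => Z (J i) (N, s)) (fun s => g (N, s)) (Q N) (hQdeg N) hN.2
        (fun s hs i => (hTh (N, s) (hT2T _ ((hTFm N s).1 hs)) (J i)).trans
          (Nat.pow_le_pow_right hX1 (le_max_right _ _)))
        (fun s hs => ((hTFm N s).1 hs).2.2.2.2.2.trans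
          (Nat.pow_le_pow_right hX1 (le_max_left _ _)))
        (fun s hs => by
          have h3 := ((hTFm N s).1 hs).2.1
          change aeval (pt (N, s)) (Q N) = 0
          rw [hQ, h3, mul_zero])
        (fun s hs => by
          have h3 := ((hTFm N s).1 hs).2.2.1
          change aeval (pt (N, s)) (pderiv 0 (Q N)) ≠ 0
          rw [hQ']
          exact mul_ne_zero (hD N) h3)
      exact ⟨T', F, hT', hF0, hFd, hFz, fun _ _ => ⟨hcard, hFc⟩⟩
    · refine ⟨∅, 1, Finset.empty_subset _, one_ne_zero, ?_, by simp, fun h3 h4 =>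
        absurd ⟨h3, h4⟩ hN⟩
      rw [totalDegree_one]
      exact Nat.zero_le b
  choose T' F hT'sub hF0 hFd hFz hgoodN using hall
  have hgoodE : ∀ᶠ N in (𝒰 : Filter ℕ), X0 ≤ X N ∧ ∀ μ, ((Q N).coeff μ).natAbs ≤ X N ^ B :=
    (hXt.eventually_ge_atTop X0).and hQco
  -- the set T3
  set T3 : Set (ℕ × ι) := {ω | ω.2 ∈ T' ω.1} with hT3
  have hT32 : ∀ ω ∈ T3, ω ∈ T2 := fun ω hω => (hTFm ω.1 ω.2).1 (hT'sub ω.1 hω)
  have hT3s : ¬ Small 𝒰 X (2 * a) T3 := by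
    rintro ⟨C', hC'⟩
    apply hT2s
    refine ⟨C * C' ^ (2 * (n + 1)) + 1, ?_⟩
    filter_upwards [hC', hgoodE] with N h3 h4
    refine ⟨hfin N, ?_⟩
    have e1 : {s | (N, s) ∈ T2}.ncard = (TF N).card := Set.ncard_eq_toFinset_card _ (hfin N)
    have e2 : {s | (N, s) ∈ T3}.ncard = (T' N).card := by
      have : {s | (N, s) ∈ T3} = (T' N : Set ι) := rfl
      rw [this, Set.ncard_coe_finset]
    rw [e1]
    rw [e2] at h3
    exact exp_arith ha (hgoodN N h4.1 h4.2).1 h3.2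
  obtain ⟨w', hw'T3, hw'S⟩ := h2 ι 𝒰 X T3 (2 * a) (by omega) hT3s
  have hw'2 : ∀ᶠ ω in (w'.W : Filter (ℕ × ι)), ω ∈ T2 :=
    (show ∀ᶠ ω in (w'.W : Filter (ℕ × ι)), ω ∈ T3 from hw'T3).mono hT32
  have hII := hkey (2 * a) w' ⟨by omega, hw'2.mono hT2T, hw'S⟩ (hw'2.mono fun ω hω => hω.1)
  -- the limit of the F
  set SS : Finset (Fin (n + 1) →₀ ℕ) :=
    Finset.Iic (Finsupp.equivFunOnFinite.symm (fun _ => b)) with hSS
  have hmemSS : ∀ N μ, (F N).coeff μ ≠ 0 → μ ∈ SS := by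
    intro N μ hμ
    rw [hSS, Finset.mem_Iic]
    intro i
    have h3 := le_totalDegree (mem_support_iff.2 hμ)
    have h4 : μ i ≤ μ.sum fun _ e => e := by
      by_cases h5 : μ i = 0
      · rw [h5]; exact Nat.zero_le _
      · exact Finset.single_le_sum (f := fun i => μ i) (fun _ _ => Nat.zero_le _)
          (Finsupp.mem_support_iff.2 h5)
    exact h4.trans (h3.trans (hFd N))
  have hbd : ∀ μ, ∃ C1 : ℕ, ∀ᶠ N in (𝒰 : Filter ℕ), hq (((F N).coeff μ : ℤ) : ℚ) ≤ (X N + 2) ^ C1 := by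
    intro μ
    refine ⟨C, ?_⟩
    filter_upwards [hgoodE] with N hN
    have h3 := (hgoodN N hN.1 hN.2).2 μ
    unfold hq
    rw [Rat.num_intCast, Rat.den_intCast]
    refine max_le (h3.trans (Nat.pow_le_pow_left (by omega) C)) ?_
    exact Nat.one_le_pow _ _ (by omega)
  set fk : (Fin (n + 1) →₀ ℕ) → kf 𝒰 X := fun μ =>
    ⟨((fun N => (((F N).coeff μ : ℤ) : ℚ)) : ℕ → ℚ), _, rfl, hbd μ⟩ with hfk
  set FF : MvPolynomial (Fin (n + 1)) (kf 𝒰 X) := ∑ μ ∈ SS, monomial (id μ) (fk μ) with hFF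
  have hFFc : ∀ μ, FF.coeff μ = if μ ∈ SS then fk μ else 0 := by
    intro μ
    rw [hFF]
    simp only [id, coeff_sum, coeff_monomial]
    rw [Finset.sum_ite_eq' SS μ]
  have hfk0 : ∀ μ, fk μ = 0 ↔ ∀ᶠ N in (𝒰 : Filter ℕ), (F N).coeff μ = 0 := by
    intro μ
    rw [← Subtype.coe_inj]
    change ((fun N => (((F N).coeff μ : ℤ) : ℚ)) : Germ (𝒰 : Filter ℕ) ℚ) = ((fun _ => (0 : ℚ)) : ℕ → ℚ) ↔ _
    rw [Germ.coe_eq]
    constructor
    · intro h
      filter_upwards [h] with N hN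
      exact_mod_cast hN
    · intro h
      filter_upwards [h] with N hN
      rw [hN]
      simp
  refine ⟨FF, ?_, ?_, ?_⟩
  · -- nonzero
    have h3 : ∀ᶠ N in (𝒰 : Filter ℕ), ∃ μ ∈ (SS : Set (Fin (n + 1) →₀ ℕ)), (F N).coeff μ ≠ 0 := by
      refine Eventually.of_forall fun N => ?_
      obtain ⟨μ, hμ⟩ := ne_zero_iff.1 (hF0 N)
      exact ⟨μ, hmemSS N μ hμ, hμ⟩
    rw [Ultrafilter.eventually_exists_mem_iff SS.finite_toSet] at h3
    obtain ⟨μ, hμ, h4⟩ := h3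
    intro h5
    have h6 := hFFc μ
    rw [h5, coeff_zero, if_pos (Finset.mem_coe.1 hμ)] at h6
    have h7 := (hfk0 μ).1 h6.symm
    obtain ⟨N, hN1, hN2⟩ := (h4.and h7).exists
    exact hN1 hN2
  · -- degree
    refine Finset.sup_le fun μ hμ => ?_
    rw [mem_support_iff, hFFc] at hμ
    have h3 : fk μ ≠ 0 := by
      intro h4
      apply hμ
      rw [h4]
      split_ifs <;> rfl
    rw [Ne, hfk0] at h3
    have h4 : ∃ N, (F N).coeff μ ≠ 0 := by
      by_contra hcon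
      push Not at hcon
      exact h3 (Eventually.of_forall hcon)
    obtain ⟨N, hN⟩ := h4
    exact (le_totalDegree (mem_support_iff.2 hN)).trans (hFd N)
  · -- the relation
    have hSSb : ∀ μ ∈ SS, μ 0 ≤ b := by
      intro μ hμ
      rw [hSS, Finset.mem_Iic] at hμ
      exact hμ 0
    set QQ : MvPolynomial (Fin M) (kf 𝒰 X) := ∑ μ ∈ SS, MvPolynomial.C (fk μ) * α ^ (μ 0) *
      β ^ (b - μ 0) * ∏ i : Fin n, MvPolynomial.X (J i) ^ (μ i.succ) with hQQ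
    have hFw' : aeval (cn (gm w' g) (fun i => gm w' (Z (J i)))) FF = 0 := by
      have h3 := aeval_gm w' (fun i ω => pt ω i) SS id fk
        (fun μ N => (((F N).coeff μ : ℤ) : ℚ)) (fun μ _ => rfl)
      rw [hptg] at h3
      rw [hFF, h3, gm_eq_zero]
      have h4 : ∀ᶠ ω in (w'.W : Filter (ℕ × ι)), ω ∈ T3 := hw'T3
      filter_upwards [h4] with ω hω
      have h5 := hFz ω.1 ω.2 hω
      have h6 : F ω.1 = ∑ μ ∈ SS, monomial (id μ) ((F ω.1).coeff μ) := by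
        ext μ
        simp only [id, coeff_sum, coeff_monomial]
        rw [Finset.sum_ite_eq' SS μ]
        split_ifs with h7
        · rfl
        · by_contra h8
          exact h7 (hmemSS ω.1 μ h8)
      rw [h6, aeval_int] at h5
      exact h5
    have hβw' : aeval (fun j => gm w' (Z j)) β ≠ 0 := by
      rw [hβ', gm_ne_zero]
      exact hw'2.mono fun ω hω => hω.2.2.2.1
    have hgw' : gm w' g = aeval (fun j => gm w' (Z j)) α / aeval (fun j => gm w' (Z j)) β := by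
      rw [hα', hβ']
      change gm w' g = gm w' (fun ω => eα ω / eβ ω)
      rw [gm_eq]
      exact hw'2.mono fun ω hω => hω.2.2.2.2.1
    have h3 := clear_den (b := b) α β (fun j => gm w' (Z j)) J SS hSSb fk (gm w' g) hβw' hgw'
    have h4 : QQ ∈ I w := by
      rw [hII, hImem, hQQ, h3]
      have h5 : (∑ μ ∈ SS, monomial μ (fk μ)) = FF := rfl
      rw [h5]
      have h6 : aeval (Fin.cons (gm w' g) (fun i => gm w' (Z (J i))) : Fin (n + 1) → RR w' ℚ) FF = 0 :=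
        hFw'
      rw [h6, mul_zero]
    have h5 := clear_den (b := b) α β (fun j => gm w (Z j)) J SS hSSb fk (gm w g) hβ0 hαβ
    have h6 := (hImem w QQ).1 h4
    rw [hQQ, h5] at h6
    exact (mul_eq_zero.1 h6).resolve_left (pow_ne_zero _ hβ0)

end Pool.Agent.Q210.FX
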