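import Mathlib

/-!
# Algebraic preliminaries: transcendence bases and separable relations
-/

set_option autoImplicit false

open MvPolynomial
open scoped IntermediateField.algebraAdjoinAdjoin

namespace Pool.Agent.Q210.FX

/-- A transcendence basis contained in a finite family. -/
lemma exists_basis {k L : Type*} [Field k] [Field L] [Algebra k L] {M : ℕ} (x : Fin M → L) :
    ∃ (n : ℕ) (J : Fin n → Fin M), AlgebraicIndependent k (fun i => x (J i)) ∧
      ∀ j, IsAlgebraic (IntermediateField.adjoin k (Set.range fun i => x (J i))) (x j) := by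
  classical
  have h0 : ∃ J : Fin 0 → Fin M, AlgebraicIndependent k (fun i => x (J i)) := by
    refine ⟨Fin.elim0, ?_⟩
    exact algebraicIndependent_empty_type
  set P : ℕ → Prop := fun n => ∃ J : Fin n → Fin M, AlgebraicIndependent k (fun i => x (J i))
    with hP
  set n := Nat.findGreatest P M with hn
  have hPn : P n := Nat.findGreatest_spec (Nat.zero_le M) h0
  obtain ⟨J, hJ⟩ := hPn
  refine ⟨n, J, hJ, ?_⟩
  intro j
  by_contra hj
  rw [← IsFractionRing.isAlgebraic_iff (Algebra.adjoin k (Set.range fun i => x (J i)))] at hj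
  have h1 := (hJ.option_iff_transcendental (x j)).mpr hj
  have h2 : P (n + 1) := by
    refine ⟨Fin.cons j J, ?_⟩
    have h3 := h1.comp (finSuccEquiv n) (finSuccEquiv n).injective
    convert h3 using 1
    funext i
    refine Fin.cases ?_ (fun i => ?_) i
    · simp
    · simp
  have h4 : n + 1 ≤ M := by
    obtain ⟨J', hJ'⟩ := h2
    have h5 : Function.Injective J' := by
      intro a b hab
      apply hJ'.injective
      simp only [hab]
    simpa using Fintype.card_le_of_injective J' h5
  have h5 := Nat.findGreatest_is_greatest (P := P) (n := M) (k := n + 1) (by omega) h4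
  exact h5 h2

/-- A separable relation. -/
lemma exists_rel {k L : Type*} [Field k] [CharZero k] [Field L] [Algebra k L] {n : ℕ}
    (y : Fin n → L) (g : L)
    (hg : IsAlgebraic (IntermediateField.adjoin k (Set.range y)) g) :
    ∃ Ψ : MvPolynomial (Fin (n + 1)) k, aeval (Fin.cons g y : Fin (n + 1) → L) Ψ = 0 ∧
      aeval (Fin.cons g y : Fin (n + 1) → L) (pderiv 0 Ψ) ≠ 0 := by
  classical
  rw [← IsFractionRing.isAlgebraic_iff (Algebra.adjoin k (Set.range y))] at hg
  have hg' : ∃ d : ℕ, ∃ p : Polynomial (Algebra.adjoin k (Set.range y)), p ≠ 0 ∧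
      Polynomial.aeval g p = 0 ∧ p.natDegree = d := by
    obtain ⟨p, hp, hp'⟩ := hg
    exact ⟨p.natDegree, p, hp, hp', rfl⟩
  obtain ⟨p, hp0, hpg, hpd⟩ := Nat.find_spec hg'
  have hmin := fun d (hd : d < Nat.find hg') => Nat.find_min hg' hd
  rw [← hpd] at hmin
  have : CharZero (Algebra.adjoin k (Set.range y)) :=
    charZero_of_injective_algebraMap (FaithfulSMul.algebraMap_injective k _)
  have hd1 : 0 < p.natDegree := by
    rw [Nat.pos_iff_ne_zero]
    intro h0
    rw [Polynomial.eq_C_of_natDegree_eq_zero h0, Polynomial.aeval_C] at hpg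
    apply hp0
    rw [Polynomial.eq_C_of_natDegree_eq_zero h0]
    have : p.coeff 0 = 0 := by
      apply FaithfulSMul.algebraMap_injective (Algebra.adjoin k (Set.range y)) L
      rw [hpg, map_zero]
    rw [this, map_zero]
  have hder : Polynomial.aeval g (Polynomial.derivative p) ≠ 0 := by
    intro h0
    refine hmin (Polynomial.derivative p).natDegree
      (Polynomial.natDegree_derivative_lt hd1.ne') ⟨Polynomial.derivative p, ?_, h0, rfl⟩
    intro h1
    have := Polynomial.derivative_eq_zero.1 h1
    omega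
  have hco : ∀ i, ∃ q : MvPolynomial (Fin n) k, aeval y q = ((p.coeff i : _) : L) := by
    intro i
    have h1 : ∀ z : L, z ∈ Algebra.adjoin k (Set.range y) →
        ∃ q : MvPolynomial (Fin n) k, aeval y q = z := by
      intro z hz
      rw [Algebra.adjoin_range_eq_range_aeval] at hz
      exact hz
    exact h1 _ (p.coeff i).2
  choose q hq using hco
  refine ⟨∑ i ∈ Finset.range (p.natDegree + 1), rename Fin.succ (q i) * X 0 ^ i, ?_, ?_⟩
  · rw [Polynomial.aeval_eq_sum_range] at hpg
    rw [map_sum, ← hpg]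
    refine Finset.sum_congr rfl fun i _ => ?_
    rw [map_mul, map_pow, aeval_X, aeval_rename, Fin.cons_zero]
    have h1 : (Fin.cons g y : Fin (n + 1) → L) ∘ Fin.succ = y := by
      funext i
      simp
    rw [h1, hq]
    rfl
  · have h2 : Polynomial.aeval g (Polynomial.derivative p) =
        ∑ i ∈ Finset.range (p.natDegree + 1), ((p.coeff i : _) : L) * (i * g ^ (i - 1)) := by
      conv_lhs => rw [p.as_sum_range_C_mul_X_pow]
      rw [map_sum, map_sum]
      refine Finset.sum_congr rfl fun i _ => ?_
      rw [Polynomial.derivative_C_mul_X_pow, map_mul, map_pow, Polynomial.aeval_X,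
        Polynomial.aeval_C, map_mul, map_natCast, mul_assoc]
      rfl
    rw [h2] at hder
    convert hder using 1
    rw [map_sum, map_sum]
    refine Finset.sum_congr rfl fun i _ => ?_
    have h3 : pderiv (0 : Fin (n + 1)) (rename Fin.succ (q i)) = 0 := by
      apply pderiv_eq_zero_of_notMem_vars
      intro h
      have := vars_rename Fin.succ (q i) h
      rw [Finset.mem_image] at this
      obtain ⟨j, -, hj⟩ := this
      exact Fin.succ_ne_zero j hj
    rw [(pderiv (0 : Fin (n + 1))).leibniz, h3, smul_zero, add_zero,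
      (pderiv (0 : Fin (n + 1))).leibniz_pow, pderiv_X_self, smul_eq_mul, smul_eq_mul, map_mul,
      aeval_rename]
    have h1 : (Fin.cons g y : Fin (n + 1) → L) ∘ Fin.succ = y := by
      funext i
      simp
    rw [h1, hq]
    simp

/-- clearing the denominators -/
lemma clear_den {k L : Type*} [Field k] [Field L] [Algebra k L] {M n b : ℕ}
    (α β : MvPolynomial (Fin M) k) (z : Fin M → L) (J : Fin n → Fin M)
    (S : Finset (Fin (n + 1) →₀ ℕ)) (hS : ∀ μ ∈ S, μ 0 ≤ b) (f : (Fin (n + 1) →₀ ℕ) → k) (γ : L)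
    (hβ : aeval z β ≠ 0) (hγ : γ = aeval z α / aeval z β) :
    aeval z (∑ μ ∈ S, C (f μ) * α ^ (μ 0) * β ^ (b - μ 0) * ∏ i : Fin n, X (J i) ^ (μ i.succ)) =
      (aeval z β) ^ b * aeval (Fin.cons γ (fun i => z (J i)) : Fin (n + 1) → L)
        (∑ μ ∈ S, monomial μ (f μ)) := by
  rw [map_sum, map_sum, Finset.mul_sum]
  refine Finset.sum_congr rfl fun μ hμ => ?_
  rw [map_mul, map_mul, map_mul, map_pow, map_pow, map_prod, aeval_C, aeval_monomial,
    Finsupp.prod_fintype _ _ (fun i => pow_zero _), Fin.prod_univ_succ, Fin.cons_zero, hγ]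
  have h1 : (aeval z β) ^ b = (aeval z β) ^ (b - μ 0) * (aeval z β) ^ (μ 0) := by
    rw [← pow_add, Nat.sub_add_cancel (hS μ hμ)]
  have h2 : ∀ i : Fin n, aeval z (X (J i) ^ (μ i.succ) : MvPolynomial (Fin M) k) =
      (Fin.cons (aeval z α / aeval z β) (fun i => z (J i)) : Fin (n + 1) → L) i.succ ^ (μ i.succ) := by
    intro i
    rw [map_pow, aeval_X, Fin.cons_succ]
  rw [Finset.prod_congr rfl fun i _ => h2 i, h1, div_pow]
  have h3 : (aeval z β) ^ (μ 0) ≠ 0 := pow_ne_zero _ hβ
  field_simp

end Pool.Agent.Q210.FX
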